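import Pool.Agent.W646.CI.Stm

/-! Project CI: diameter of the cells, genus and oscillation. -/

set_option autoImplicit false

namespace Pool.Agent.W585.CI

open Pool.Agent.W646.CI

/-- difference of powers -/
theorem pow_sub_le {a b B : ℝ} (ha : 0 ≤ a) (hab : a ≤ b) (hb : b ≤ B) (hB : 1 ≤ B) (n : ℕ) :
    b ^ n - a ^ n ≤ n * B ^ n * (b - a) := by
  induction n with
  | zero => simp
  | succ n ih =>
    have hB0 : 0 ≤ B := by linarith
    have h1 : b ^ n ≤ B ^ n := pow_le_pow_left₀ (ha.trans hab) hb n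
    have h2 : B ^ n ≤ B ^ (n + 1) := pow_le_pow_right₀ hB (Nat.le_succ n)
    have h3 : 0 ≤ b - a := by linarith
    have h4 : 0 ≤ (n : ℝ) * B ^ n * (b - a) := by positivity
    calc b ^ (n + 1) - a ^ (n + 1) = b ^ n * (b - a) + a * (b ^ n - a ^ n) := by ring
      _ ≤ B ^ (n + 1) * (b - a) + a * (n * B ^ n * (b - a)) := by
          refine add_le_add (mul_le_mul_of_nonneg_right (h1.trans h2) h3) ?_
          exact mul_le_mul_of_nonneg_left ih ha
      _ ≤ B ^ (n + 1) * (b - a) + B * (n * B ^ n * (b - a)) := by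
          have : a * (n * B ^ n * (b - a)) ≤ B * (n * B ^ n * (b - a)) :=
            mul_le_mul_of_nonneg_right (hab.trans hb) h4
          linarith
      _ = ((n + 1 : ℕ) : ℝ) * B ^ (n + 1) * (b - a) := by
          push_cast
          ring

theorem num (K : ℕ) (hK : 3 ≤ K) : (128 * K * (K + 2) : ℝ) ≤ 2 ^ (18 * K) := by
  have h1 : K ≤ 2 ^ K := (Nat.lt_two_pow_self).le
  have h2 : K + 2 ≤ 2 ^ (K + 2) := (Nat.lt_two_pow_self).le
  have h3 : 128 * K * (K + 2) ≤ 2 ^ (18 * K) := by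
    calc 128 * K * (K + 2) ≤ 2 ^ 7 * 2 ^ K * 2 ^ (K + 2) := by
          refine Nat.mul_le_mul (Nat.mul_le_mul (by norm_num) h1) h2
      _ = 2 ^ (7 + K + (K + 2)) := by rw [pow_add 2 (7 + K) (K + 2), pow_add 2 7 K]
      _ ≤ 2 ^ (18 * K) := Nat.pow_le_pow_right (by norm_num) (by omega)
  exact_mod_cast h3

theorem key {K : ℕ} (hK : 3 ≤ K) {M : ℝ} (hM : 2 ≤ M) :
    128 * K * (K + 2) * (M ^ K * M ^ K) ≤ M ^ (20 * K) := by
  have h1 : M ^ (20 * K) = M ^ (18 * K) * (M ^ K * M ^ K) := by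
    rw [← pow_add, ← pow_add]
    congr 1
    ring
  rw [h1]
  have h2 : (2 : ℝ) ^ (18 * K) ≤ M ^ (18 * K) := pow_le_pow_left₀ (by norm_num) hM _
  exact mul_le_mul_of_nonneg_right ((num K hK).trans h2) (by positivity)

theorem osc {K : ℕ} (hK : 3 ≤ K) {t t' L B : ℝ} (ht' : 1 ≤ t') (hB : t ≤ B)
    (hL : 0 < L) (htt : t - t' ≤ 1 / L) (hbig : 6 * K * B ^ K ≤ L) (h : t' ≤ t) :
    rho K t ≤ 2 * rho K t' := by
  have hB1 : 1 ≤ B := ht'.trans (h.trans hB)
  have hBK : 1 ≤ B ^ K := one_le_pow₀ hB1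
  have hK0 : (0 : ℝ) ≤ K := Nat.cast_nonneg K
  have hK1 : (0 : ℝ) ≤ (K : ℝ) - 1 := by
    have : (3 : ℝ) ≤ K := by exact_mod_cast hK
    linarith
  have ht0 : 0 ≤ t := by linarith
  -- ratio
  have h1 : t ≤ t' * Real.exp (1 / L) := by
    have e1 : 1 + 1 / L ≤ Real.exp (1 / L) := by
      have := Real.add_one_le_exp (1 / L)
      linarith
    have hL' : 0 < 1 / L := by positivity
    calc t ≤ t' + 1 / L := by linarith
      _ ≤ t' * (1 + 1 / L) := by nlinarith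
      _ ≤ t' * Real.exp (1 / L) := mul_le_mul_of_nonneg_left e1 (by linarith)
  have hpow : ∀ n : ℕ, n ≤ 2 * K → t ^ n ≤ t' ^ n * Real.exp (2 * K / L) := by
    intro n hn
    calc t ^ n ≤ (t' * Real.exp (1 / L)) ^ n := pow_le_pow_left₀ ht0 h1 n
      _ = t' ^ n * Real.exp (n * (1 / L)) := by rw [mul_pow, ← Real.exp_nat_mul]
      _ ≤ t' ^ n * Real.exp (2 * K / L) := by
          refine mul_le_mul_of_nonneg_left (Real.exp_le_exp.2 ?_) (by positivity)
          have hn' : (n : ℝ) ≤ 2 * K := by exact_mod_cast hn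
          rw [mul_one_div]
          gcongr
  have hexp : Real.exp (t ^ K) ≤ Real.exp (t' ^ K) * Real.exp (K * B ^ K / L) := by
    rw [← Real.exp_add]
    refine Real.exp_le_exp.2 ?_
    have e := pow_sub_le (by linarith : (0 : ℝ) ≤ t') h hB hB1 K
    have e2 : (K : ℝ) * B ^ K * (t - t') ≤ K * B ^ K * (1 / L) :=
      mul_le_mul_of_nonneg_left htt (by positivity)
    have e3 : (K : ℝ) * B ^ K * (1 / L) = K * B ^ K / L := by ring
    linarith
  have hE : Real.exp (2 * K / L) * Real.exp (K * B ^ K / L) ≤ 2 := by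
    rw [← Real.exp_add, ← add_div]
    have e1 : (2 * K + K * B ^ K) / L ≤ 1 / 2 := by
      rw [div_le_iff₀ hL]
      nlinarith
    calc Real.exp ((2 * K + K * B ^ K) / L) ≤ Real.exp (1 / 2) := Real.exp_le_exp.2 e1
      _ ≤ 2 := by
          have e2 : Real.exp (1 / 2) * Real.exp (1 / 2) = Real.exp 1 := by
            rw [← Real.exp_add]; norm_num
          have e3 := Real.exp_one_lt_d9
          have e4 := Real.exp_pos (1 / 2 : ℝ)
          nlinarith
  have hpoly : (K * t ^ (K - 1)) ^ 2 + K * (K - 1) * t ^ (K - 2) ≤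
      ((K * t' ^ (K - 1)) ^ 2 + K * (K - 1) * t' ^ (K - 2)) * Real.exp (2 * K / L) := by
    have e1 := hpow ((K - 1) * 2) (by omega)
    have e2 := hpow (K - 2) (by omega)
    rw [mul_pow, mul_pow, ← pow_mul, ← pow_mul, add_mul]
    refine add_le_add ?_ ?_
    · rw [mul_assoc]
      exact mul_le_mul_of_nonneg_left e1 (by positivity)
    · rw [mul_assoc (K * ((K : ℝ) - 1))]
      exact mul_le_mul_of_nonneg_left e2 (mul_nonneg hK0 hK1)
  have hp0 : 0 ≤ (K * t' ^ (K - 1)) ^ 2 + K * ((K : ℝ) - 1) * t' ^ (K - 2) := by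
    have : 0 ≤ K * ((K : ℝ) - 1) * t' ^ (K - 2) :=
      mul_nonneg (mul_nonneg hK0 hK1) (pow_nonneg (by linarith) _)
    positivity
  unfold rho
  calc _ ≤ (((K * t' ^ (K - 1)) ^ 2 + K * ((K : ℝ) - 1) * t' ^ (K - 2)) *
          Real.exp (2 * K / L)) * (Real.exp (t' ^ K) * Real.exp (K * B ^ K / L)) :=
        mul_le_mul hpoly hexp (Real.exp_pos _).le (mul_nonneg hp0 (Real.exp_pos _).le)
    _ = (((K * t' ^ (K - 1)) ^ 2 + K * ((K : ℝ) - 1) * t' ^ (K - 2)) * Real.exp (t' ^ K)) *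
          (Real.exp (2 * K / L) * Real.exp (K * B ^ K / L)) := by ring
    _ ≤ (((K * t' ^ (K - 1)) ^ 2 + K * ((K : ℝ) - 1) * t' ^ (K - 2)) * Real.exp (t' ^ K)) * 2 :=
        mul_le_mul_of_nonneg_left hE (mul_nonneg hp0 (Real.exp_pos _).le)
    _ = _ := by ring

theorem osc' {K : ℕ} (hK : 3 ≤ K) {t t' : ℝ} (ht : 1 ≤ t) (h : t ≤ t') :
    rho K t ≤ 2 * rho K t' := by
  have hK0 : (0 : ℝ) ≤ K := Nat.cast_nonneg K
  have hK1 : (0 : ℝ) ≤ (K : ℝ) - 1 := by
    have : (3 : ℝ) ≤ K := by exact_mod_cast hK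
    linarith
  have ht0 : 0 ≤ t := by linarith
  have ht'0 : 0 ≤ t' := by linarith
  have hpow : ∀ n : ℕ, t ^ n ≤ t' ^ n := fun n => pow_le_pow_left₀ ht0 h n
  have hp0 : 0 ≤ (K * t' ^ (K - 1)) ^ 2 + K * ((K : ℝ) - 1) * t' ^ (K - 2) := by
    have : 0 ≤ K * ((K : ℝ) - 1) * t' ^ (K - 2) :=
      mul_nonneg (mul_nonneg hK0 hK1) (pow_nonneg ht'0 _)
    positivity
  have hpoly : (K * t ^ (K - 1)) ^ 2 + K * (K - 1) * t ^ (K - 2) ≤
      (K * t' ^ (K - 1)) ^ 2 + K * (K - 1) * t' ^ (K - 2) := by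
    refine add_le_add ?_ (mul_le_mul_of_nonneg_left (hpow _) (mul_nonneg hK0 hK1))
    refine pow_le_pow_left₀ (by positivity) ?_ 2
    exact mul_le_mul_of_nonneg_left (hpow _) hK0
  have h1 : rho K t ≤ rho K t' := by
    unfold rho
    exact mul_le_mul hpoly (Real.exp_le_exp.2 (hpow K)) (Real.exp_pos _).le hp0
  have h2 : 0 ≤ rho K t' := mul_nonneg hp0 (Real.exp_pos _).le
  linarith

theorem geo2 : S_GEO2 := by
  intro K hK m i l hi hl
  obtain ⟨M, hM⟩ : ∃ M : ℝ, M = m + 2 := ⟨_, rfl⟩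
  obtain ⟨L, hL⟩ : ∃ L : ℝ, L = (LL K m : ℝ) := ⟨_, rfl⟩
  have hm0 : (0 : ℝ) ≤ m := Nat.cast_nonneg m
  have hM2 : 2 ≤ M := by rw [hM]; linarith
  have hLM : L = M ^ (20 * K) := by
    rw [hL, hM]
    unfold LL
    push_cast
    rfl
  have hL0 : 0 < L := by rw [hLM]; positivity
  have hkey : 128 * K * (K + 2) * (M ^ K * M ^ K) ≤ L := by
    rw [hLM]
    exact key hK hM2
  have hK3 : (3 : ℝ) ≤ K := by exact_mod_cast hK
  have hMK : 1 ≤ M ^ K := one_le_pow₀ (by linarith)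
  have hiL : ((i : ℝ) + 1) / L ≤ 1 := by
    rw [div_le_one hL0, hL]
    exact_mod_cast hi
  have hi0 : (0 : ℝ) ≤ i / L := by positivity
  obtain ⟨t0, ht0⟩ : ∃ t0 : ℝ, t0 = m + i / L := ⟨_, rfl⟩
  have ht0m : (m : ℝ) ≤ t0 := by rw [ht0]; linarith
  have hsplit : ((i : ℝ) + 1) / L = i / L + 1 / L := by ring
  have hLpos : 0 < 1 / L := by positivity
  have ht0M : t0 ≤ M := by rw [ht0, hM]; linarith
  refine ⟨?_, ?_, ?_⟩
  · rintro s ⟨h1, h2, h3, h4⟩
    rw [← hL] at h1 h2 h3 h4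
    rw [← ht0] at h1
    have hre : |(s - cpt K m i l).re| ≤ 1 / L := by
      have e : (s - cpt K m i l).re = s.re - t0 := by
        unfold cpt
        rw [Complex.sub_re, ht0, hL]
      rw [e, abs_of_nonneg (by linarith)]
      rw [ht0]
      linarith
    have hst : s.re ≤ M := by rw [hM]; linarith
    have hd := pow_sub_le (ht0m.trans' hm0) h1 hst (by linarith) (K - 1)
    have hd0 : 0 ≤ s.re ^ (K - 1) - t0 ^ (K - 1) :=
      sub_nonneg.2 (pow_le_pow_left₀ (ht0m.trans' hm0) h1 _)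
    have hd1 : s.re ^ (K - 1) - t0 ^ (K - 1) ≤ K * M ^ K / L := by
      refine hd.trans ?_
      have e1 : ((K - 1 : ℕ) : ℝ) ≤ K := by exact_mod_cast Nat.sub_le K 1
      have e2 : M ^ (K - 1) ≤ M ^ K := pow_le_pow_right₀ (by linarith) (Nat.sub_le K 1)
      have e3 : s.re - t0 ≤ 1 / L := by rw [ht0]; linarith
      have e4 : 0 ≤ s.re - t0 := by linarith
      calc ((K - 1 : ℕ) : ℝ) * M ^ (K - 1) * (s.re - t0) ≤ K * M ^ K * (1 / L) := by
            gcongr
        _ = K * M ^ K / L := by ring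
    have him : |(s - cpt K m i l).im| ≤ 8 * (K * M ^ K / L) + 2 * Real.pi / L := by
      have e : (s - cpt K m i l).im = 8 * (s.re ^ (K - 1) - t0 ^ (K - 1)) +
          (s.im - 8 * s.re ^ (K - 1) - (-Real.pi + 2 * Real.pi * l / L)) := by
        unfold cpt
        rw [Complex.sub_im, ht0, hL]
        ring
      rw [e]
      have e2 : 2 * Real.pi * ((l : ℝ) + 1) / L = 2 * Real.pi * l / L + 2 * Real.pi / L := by ring
      rw [abs_of_nonneg (by linarith)]
      linarith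
    have hn := Complex.norm_le_abs_re_add_abs_im (s - cpt K m i l)
    have hpi := Real.pi_lt_d2
    have hdl : dl K m = 16 * K * M ^ K / L := by
      unfold dl
      rw [hM, hL]
    rw [hdl]
    have e5 : 1 / L + (8 * (K * M ^ K / L) + 2 * Real.pi / L) =
        (1 + 8 * (K * M ^ K) + 2 * Real.pi) / L := by ring
    have e6 : (1 + 8 * (K * M ^ K) + 2 * Real.pi) / L ≤ 16 * K * M ^ K / L := by
      gcongr
      have : 3 * 1 ≤ (K : ℝ) * M ^ K := mul_le_mul hK3 hMK (by norm_num) (by linarith)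
      nlinarith
    linarith
  · have hdl : dl K m = 16 * K * M ^ K / L := by
      unfold dl
      rw [hM, hL]
    have hpp : (pp K m i : ℝ) + 1 ≤ (K + 2) * M ^ K := by
      unfold pp
      push_cast
      rw [← hL, ← ht0]
      have e1 : (⌊(K : ℝ) * t0 ^ (K - 1)⌋₊ : ℝ) ≤ K * t0 ^ (K - 1) :=
        Nat.floor_le (mul_nonneg (by linarith) (pow_nonneg (ht0m.trans' hm0) _))
      have e2 : t0 ^ (K - 1) ≤ M ^ K :=
        (pow_le_pow_left₀ (ht0m.trans' hm0) ht0M _).trans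
          (pow_le_pow_right₀ (by linarith) (Nat.sub_le K 1))
      have e3 : (K : ℝ) * t0 ^ (K - 1) ≤ K * M ^ K := mul_le_mul_of_nonneg_left e2 (by linarith)
      linarith
    rw [hdl]
    have e4 : 8 * (16 * K * M ^ K / L) * ((pp K m i : ℝ) + 1) =
        (128 * K * M ^ K * ((pp K m i : ℝ) + 1)) / L := by ring
    rw [e4, div_le_one hL0]
    refine le_trans ?_ hkey
    calc 128 * K * M ^ K * ((pp K m i : ℝ) + 1) ≤ 128 * K * M ^ K * ((K + 2) * M ^ K) :=
          mul_le_mul_of_nonneg_left hpp (by positivity)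
      _ = _ := by ring
  · rintro hm s ⟨h1, h2, -, -⟩ s' ⟨h1', h2', -, -⟩
    rw [← hL] at h1 h2 h1' h2'
    have hm1 : (1 : ℝ) ≤ m := by exact_mod_cast hm
    rcases le_total s.re s'.re with h | h
    · exact osc' hK (by linarith) h
    · refine osc hK (B := M) (L := L) (by linarith) (by rw [hM]; linarith) hL0 (by linarith) ?_ h
      refine le_trans ?_ hkey
      have e1 : 6 * K * M ^ K * 1 ≤ 6 * K * M ^ K * M ^ K :=
        mul_le_mul_of_nonneg_left hMK (by positivity)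
      have e2 : 0 ≤ (K : ℝ) * (M ^ K * M ^ K) := by positivity
      nlinarith

end Pool.Agent.W585.CI

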